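import Pool.Agent.H438R3.VB.Main

/-!
# Vertex Bisection cannot be approximated with a ratio below two in fpt time
-/

namespace Pool.Agent.Results.MP_8c536d_lc.NoApproxBelowTwo

open Pool.Agent.H438R3.VB Pool.Agent.NPC
open Pool.Agent.H633R2 hiding TT Ds dg

/-- If Vertex Bisection has an FPT-approximation scheme, or has, for one constant `ρ < 2`, an fpt
algorithm that outputs a vertex bisector with at most `ρ * k` vertices or correctly reports that
there is none with at most `k` vertices, then every problem in W[1] is fixed-parameter
tractable. -/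
theorem result : (FptScheme ∨ ∃ ρ : ℝ, ρ < 2 ∧ FptApprox ρ) →
    ∀ (α : Type) [TEnc α] (κ : α → ℕ) (P : α → Prop), InW1 κ P → IsFpt κ P :=
  fun h α _ κ P hP => main h α κ P hP

end Pool.Agent.Results.MP_8c536d_lc.NoApproxBelowTwo
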